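import Pool.Agent.K1H77.CG.Basic

/-! # Whitehead moves on unlabelled cubic graphs: the statements of the pieces

Model: `M` runs through the fixed point free involutions (`Mat`) of the `3 n` edge-ends, `n = 2 k`.
(1) Typical `M` is connected, has no small set of vertices with more edges than vertices, and has
cycles of many different lengths `≤ L` (second moment).  (2) If `M` has a cycle of length `ℓ` and no
small dense sets, one Whitehead move makes it shorter and changes no longer cycle: many neighbours.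
(3) Passage to isomorphism classes by Burnside's lemma: the sum of the numbers of fixed points of the
elements of `S₃ ≀ S_n` which move some vertex is negligible. -/

set_option autoImplicit false

open Finset Filter Topology

namespace Pool.Agent.K1H77.CG

/-- all fixed point free involutions -/
noncomputable def Mat (α : Type) [Fintype α] [DecidableEq α] : Finset (Equiv.Perm α) := by
  classical exact univ.filter (fun M => IsMat M)

theorem mem_Mat {α : Type} [Fintype α] [DecidableEq α] {M : Equiv.Perm α} :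
    M ∈ Mat α ↔ IsMat M := by simp [Mat]

/-- number of the fixed point free involutions of a set with `n` elements -/
def fm : ℕ → ℕ
  | 0 => 1
  | 1 => 0
  | (n + 2) => (n + 1) * fm n

theorem fm_pos (k : ℕ) : 0 < fm (2 * k) := by
  induction k with
  | zero => simp [fm]
  | succ k ih =>
    have : 2 * (k + 1) = 2 * k + 2 := by ring
    rw [this, fm]
    positivity

theorem fm_odd (k : ℕ) : fm (2 * k + 1) = 0 := by
  induction k with
  | zero => simp [fm]
  | succ k ih =>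
    have : 2 * (k + 1) + 1 = (2 * k + 1) + 2 := by ring
    rw [this, fm, ih]
    simp

/-! ## Counting matchings -/

def S_CARD : Prop :=
  ∀ (α : Type) [Fintype α] [DecidableEq α], (Mat α).card = fm (Fintype.card α)

open Classical in
/-- the number of matchings with prescribed values on a closed set `F` -/
def S_PRES : Prop :=
  ∀ (α : Type) [Fintype α] [DecidableEq α] (F : Finset α) (g : α → α),
    (∀ x ∈ F, g x ∈ F) → (∀ x ∈ F, g (g x) = x) → (∀ x ∈ F, g x ≠ x) →
    ((Mat α).filter (fun M => ∀ x ∈ F, M x = g x)).card = fm (Fintype.card α - F.card)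

open Classical in
/-- the number of matchings for which `F` is closed -/
def S_CLOS : Prop :=
  ∀ (α : Type) [Fintype α] [DecidableEq α] (F : Finset α),
    ((Mat α).filter (fun M => ∀ x ∈ F, M x ∈ F)).card ≤
      fm F.card * fm (Fintype.card α - F.card)

def S_FMR : Prop :=
  ∀ k j : ℕ, j ≤ k → (fm (2 * (k - j)) : ℝ) * ((k : ℝ) / 2) ^ j ≤ fm (2 * k)

def S_FMA : Prop :=
  ∀ j : ℕ, Tendsto (fun k : ℕ => (fm (6 * k - 2 * j) : ℝ) * (6 * k : ℝ) ^ j / fm (6 * k))
    atTop (𝓝 1)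

/-! ## Connectivity and small dense sets -/

open Classical in
def S_CONN : Prop :=
  Tendsto (fun k : ℕ => (((Mat (HE (2 * k))).filter (fun M => ¬ Conn M)).card : ℝ) / fm (6 * k))
    atTop (𝓝 0)

open Classical in
/-- no set of at most `R` vertices spans more edges than it has vertices -/
def NoDense (R : ℕ) {n : ℕ} (M : Equiv.Perm (HE n)) : Prop :=
  ∀ U : Finset (Fin n), U.card ≤ R →
    (univ.filter (fun h : HE n => h.1 ∈ U ∧ (M h).1 ∈ U)).card < 2 * (U.card + 1)

open Classical in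
def S_DENS : Prop :=
  ∀ R : ℕ, Tendsto (fun k : ℕ =>
    (((Mat (HE (2 * k))).filter (fun M => ¬ NoDense R M)).card : ℝ) / fm (6 * k)) atTop (𝓝 0)

/-! ## Cycles -/

/-- data of a rooted directed cycle of length `k + 1`: vertices `c.1 i`, incoming edge-ends
`(c.1 i, c.2.1 i)`, outgoing edge-ends `(c.1 i, c.2.2 i)` -/
abbrev CD (k n : ℕ) := (Fin (k + 1) → Fin n) × (Fin (k + 1) → Fin 3) × (Fin (k + 1) → Fin 3)

/-- `c` is a rooted directed cycle of length `k + 1` of `M` -/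
def IsCyc {k n : ℕ} (M : Equiv.Perm (HE n)) (c : CD k n) : Prop :=
  Function.Injective c.1 ∧ (∀ i, c.2.1 i ≠ c.2.2 i) ∧
    ∀ i, M (c.1 i, c.2.2 i) = (c.1 (i + 1), c.2.1 (i + 1))

/-- the set of the rooted directed cycles of length `k + 1` -/
noncomputable def cycs (k : ℕ) {n : ℕ} (M : Equiv.Perm (HE n)) : Finset (CD k n) := by
  classical exact univ.filter (fun c => IsCyc M c)

theorem mem_cycs {k n : ℕ} {M : Equiv.Perm (HE n)} {c : CD k n} : c ∈ cycs k M ↔ IsCyc M c := by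
  simp [cycs]

/-- the edge-ends of a cycle -/
def FE {k n : ℕ} (c : CD k n) : Finset (HE n) :=
  univ.image (fun i => (c.1 i, c.2.2 i)) ∪ univ.image (fun i => (c.1 i, c.2.1 i))

/-- first moment, exactly -/
def S_CYC1E : Prop :=
  ∀ k n : ℕ, ∑ M ∈ Mat (HE n), (cycs k M).card =
    n.descFactorial (k + 1) * 6 ^ (k + 1) * fm (3 * n - 2 * (k + 1))

def S_CYC1 : Prop :=
  ∀ k : ℕ, Tendsto (fun m : ℕ => (∑ M ∈ Mat (HE (2 * m)), ((cycs k M).card : ℝ)) / fm (6 * m))
    atTop (𝓝 (2 ^ (k + 1)))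

open Classical in
/-- pairs of cycles without common vertices -/
def S_DISJ : Prop :=
  ∀ k n : ℕ, ∑ M ∈ Mat (HE n), ((cycs k M ×ˢ cycs k M).filter
      (fun p => ∀ i j, p.1.1 i ≠ p.2.1 j)).card ≤
    n.descFactorial (2 * (k + 1)) * 36 ^ (k + 1) * fm (3 * n - 4 * (k + 1))

open Classical in
/-- cycles with all edges in `c` -/
def S_SAME : Prop :=
  ∀ (k n : ℕ) (M : Equiv.Perm (HE n)), IsMat M → ∀ c ∈ cycs k M,
    ((cycs k M).filter (fun c' => ∀ i, (c'.1 i, c'.2.2 i) ∈ FE c)).card ≤ 2 * (k + 1)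

/-- a cycle which meets `A` and is not contained in `F` adds more edges than vertices -/
def S_NEW : Prop :=
  ∀ (k n : ℕ) (M : Equiv.Perm (HE n)) (A : Finset (Fin n)) (F : Finset (HE n)) (c : CD k n),
    IsMat M → (∀ h ∈ F, M h ∈ F) → (∀ h ∈ F, h.1 ∈ A) → IsCyc M c → (∃ i, c.1 i ∈ A) →
    (∃ i, (c.1 i, c.2.2 i) ∉ F) →
    F.card + 2 * ((univ.image c.1 \ A).card + 1) ≤ (F ∪ FE c).card

open Classical in
/-- pairs of different cycles with a common vertex -/
def S_INT : Prop :=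
  ∀ k : ℕ, ∃ C : ℝ, ∀ m : ℕ, 1 ≤ m → (∑ M ∈ Mat (HE (2 * m)), (((cycs k M ×ˢ cycs k M).filter
      (fun p => (∃ i j, p.1.1 i = p.2.1 j) ∧ ∃ i, (p.2.1 i, p.2.2.2 i) ∉ FE p.1)).card : ℝ)) ≤
    C / m * fm (6 * m)

def S_CYC2 : Prop :=
  ∀ (k : ℕ) (ε : ℝ), 0 < ε → ∀ᶠ m : ℕ in atTop,
    ∑ M ∈ Mat (HE (2 * m)), ((cycs k M).card : ℝ) ^ 2 ≤
      (4 ^ (k + 1) + 2 * (k + 1) * 2 ^ (k + 1) + ε) * fm (6 * m)

open Classical in
def S_EX : Prop :=
  ∀ (k : ℕ) (ε : ℝ), 0 < ε → ∀ᶠ m : ℕ in atTop,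
    (((Mat (HE (2 * m))).filter (fun M => cycs k M = ∅)).card : ℝ) ≤
      (2 * (k + 1) / 2 ^ (k + 1) + ε) * fm (6 * m)

open Classical in
/-- the lengths (minus one) between `3` and `L + 1` of the cycles of `M` -/
noncomputable def lens (L : ℕ) {n : ℕ} (M : Equiv.Perm (HE n)) : Finset ℕ :=
  (range (L + 1)).filter (fun k => 2 ≤ k ∧ (cycs k M).Nonempty)

open Classical in
def S_TYP : Prop :=
  ∀ (d : ℕ) (ε : ℝ), 0 < ε → ∃ L : ℕ, ∀ᶠ m : ℕ in atTop,
    (((Mat (HE (2 * m))).filter (fun M => ¬ (Conn M ∧ NoDense (2 * L + 2) M ∧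
      d ≤ (lens L M).card))).card : ℝ) ≤ ε * fm (6 * m)

/-! ## Moves -/

def S_MOVE : Prop :=
  ∀ (n : ℕ) (M : Equiv.Perm (HE n)) (L k : ℕ), IsMat M → NoDense (2 * L + 2) M → 1 ≤ k → k ≤ L →
    (cycs k M).Nonempty → ∃ M' : Equiv.Perm (HE n), WM M M' ∧
      (∀ j, k < j → j ≤ L → (cycs j M').card = (cycs j M).card) ∧
      (cycs k M').card < (cycs k M).card

def S_WMC : Prop :=
  ∀ (n : ℕ) (M M' : Equiv.Perm (HE n)), WM M M' → IsMat M → IsMat M' ∧ (Conn M → Conn M')

def S_INV : Prop :=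
  ∀ (n : ℕ) (M M' : Equiv.Perm (HE n)), Iso M M' → ∀ k, (cycs k M).card = (cycs k M').card

def S_DEG : Prop :=
  ∀ (n L d : ℕ) (M : CubicGraph n), NoDense (2 * L + 2) M.1 → d ≤ (lens L M.1).card →
    d ≤ ((Gam n).neighborSet (Quotient.mk (isoSetoid n) M)).ncard

/-! ## Burnside -/

/-- the group of the edge-end permutations which lie over a permutation of the vertices -/
noncomputable def Wr (n : ℕ) : Finset (Equiv.Perm (HE n)) := by
  classical exact univ.filter (fun σ => ∃ π : Equiv.Perm (Fin n), ∀ h, (σ h).1 = π h.1)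

noncomputable def Wr0 (n : ℕ) : Finset (Equiv.Perm (HE n)) := by
  classical exact univ.filter (fun σ => ∀ h, (σ h).1 = h.1)

/-- automorphisms of `M` -/
noncomputable def stab {n : ℕ} (M : Equiv.Perm (HE n)) : ℕ := by
  classical exact ((Wr n).filter (fun σ => ∀ h, σ (M h) = M (σ h))).card

/-- automorphisms of `M` which fix all vertices -/
noncomputable def stab0 {n : ℕ} (M : Equiv.Perm (HE n)) : ℕ := by
  classical exact ((Wr0 n).filter (fun σ => ∀ h, σ (M h) = M (σ h))).card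

/-- matchings with automorphism `σ` -/
noncomputable def fixc {α : Type} [Fintype α] [DecidableEq α] (σ : Equiv.Perm α) : ℕ := by
  classical exact ((Mat α).filter (fun M => ∀ h, σ (M h) = M (σ h))).card

/-- number of the vertices `v` such that `σ` moves an edge-end at `v` -/
noncomputable def mv {n : ℕ} (σ : Equiv.Perm (HE n)) : ℕ := by
  classical exact (univ.filter (fun v : Fin n => ∃ i, σ (v, i) ≠ (v, i))).card

/-- number of the vertices `v` fixed by `π` such that `σ` moves an edge-end at `v` -/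
noncomputable def tch {n : ℕ} (π : Equiv.Perm (Fin n)) (σ : Equiv.Perm (HE n)) : ℕ := by
  classical exact (univ.filter (fun v : Fin n => π v = v ∧ ∃ i, σ (v, i) ≠ (v, i))).card

def S_ORB : Prop :=
  ∀ (n : ℕ) (P : Equiv.Perm (HE n) → Prop), (∀ M M', Iso M M' → P M → P M') →
    {x : Cls n | ∃ M : CubicGraph n, Quotient.mk (isoSetoid n) M = x ∧ P M.1}.ncard * (Wr n).card =
      ∑ M ∈ (by classical exact (Mat (HE n)).filter (fun M => Conn M ∧ P M)), stab M

def S_FIX : Prop :=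
  ∀ (α : Type) [Fintype α] [DecidableEq α] (σ : Equiv.Perm α),
    (fixc σ : ℝ) ≤ fm (Fintype.card α - σ.support.card) *
      (1 + Real.sqrt σ.support.card) ^ σ.cycleType.card

open Classical in
def S_PERMS : Prop :=
  ∀ n s m : ℕ, (univ.filter (fun π : Equiv.Perm (Fin n) =>
    π.support.card = s ∧ π.cycleType.card = m)).card * m.factorial ≤ n ^ s * 2 ^ s

def S_GAM : Prop :=
  ∀ (n : ℕ) (π : Equiv.Perm (Fin n)) (σ : Equiv.Perm (HE n)), (∀ h, (σ h).1 = π h.1) →
    3 * π.support.card + 2 * tch π σ ≤ σ.support.card ∧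
    σ.support.card ≤ 3 * π.support.card + 3 * tch π σ ∧
    σ.cycleType.card ≤ 3 * π.cycleType.card + tch π σ

open Classical in
def S_WRC : Prop :=
  ∀ (n t : ℕ) (π : Equiv.Perm (Fin n)), (univ.filter (fun σ : Equiv.Perm (HE n) =>
    (∀ h, (σ h).1 = π h.1) ∧ tch π σ = t)).card * t.factorial ≤
      6 ^ π.support.card * (6 * n) ^ t

open Classical in
/-- all `σ` with given numbers `s`, `m`, `t` -/
def S_TERM : Prop :=
  ∃ A B : ℝ, 0 < A ∧ 0 < B ∧ ∀ k s m t : ℕ, 1 ≤ k →
    ∑ π ∈ univ.filter (fun π : Equiv.Perm (Fin (2 * k)) =>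
        π.support.card = s ∧ π.cycleType.card = m),
      ∑ σ ∈ univ.filter (fun σ : Equiv.Perm (HE (2 * k)) =>
        (∀ h, (σ h).1 = π h.1) ∧ tch π σ = t), (fixc σ : ℝ) ≤
    fm (6 * k) * (A / (k : ℝ) ^ (1 / 4 : ℝ)) ^ s * (B ^ t / Real.sqrt t.factorial)

open Classical in
def S_SUM1 : Prop :=
  Tendsto (fun k : ℕ => (∑ σ ∈ (Wr (2 * k)).filter (fun σ => ¬ ∀ h, (σ h).1 = h.1),
    (fixc σ : ℝ)) / fm (6 * k)) atTop (𝓝 0)

def S_SUM0 : Prop :=
  ∃ C : ℝ, ∀ k : ℕ, 1 ≤ k → ∑ σ ∈ Wr0 (2 * k), (36 : ℝ) ^ mv σ * fixc σ ≤ C * fm (6 * k)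

open Classical in
def S_SQ : Prop :=
  ∀ (n : ℕ) (M : Equiv.Perm (HE n)), 2 < n → IsMat M → Conn M →
    (stab0 M) ^ 2 ≤ ∑ σ ∈ (Wr0 n).filter (fun σ => ∀ h, σ (M h) = M (σ h)), 36 ^ mv σ

/-! ## Assembly -/

def S_RAT : Prop :=
  ∀ d : ℕ, Tendsto (fun k : ℕ =>
    ({x : Cls (2 * k) | ((Gam (2 * k)).neighborSet x).ncard < d}.ncard : ℝ) /
      (Nat.card (Cls (2 * k)) : ℝ)) atTop (𝓝 0)

end Pool.Agent.K1H77.CG
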