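import Mathlib

/-! # Whitehead moves on unlabelled cubic graphs (problem MP_992c04_co): definitions

A cubic multigraph with vertex set `Fin n` (loops and multiple edges allowed) is described by its
`3 n` edge-ends: the three edge-ends at the vertex `v` are `(v, 0)`, `(v, 1)`, `(v, 2)`, and the edges
are the pairs `{h, M h}` of a fixed point free involution `M` of the set of the edge-ends. -/

set_option autoImplicit false

open Finset Filter Topology

namespace Pool.Agent.K1H77.CG

/-- the edge-ends of a cubic graph with vertex set `Fin n` -/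
abbrev HE (n : ℕ) := Fin n × Fin 3

/-- fixed point free involution -/
def IsMat {α : Type} (M : Equiv.Perm α) : Prop := (∀ x, M (M x) = x) ∧ ∀ x, M x ≠ x

/-- the graph is connected: a nonempty set of vertices which contains all neighbours of its elements
is the set of all vertices -/
def Conn {n : ℕ} (M : Equiv.Perm (HE n)) : Prop :=
  ∀ S : Finset (Fin n), S.Nonempty → (∀ h : HE n, h.1 ∈ S → (M h).1 ∈ S) → S = univ

/-- isomorphism: a bijection of the vertices together with a bijection of the edge-ends over it, which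
maps edges to edges -/
def Iso {n : ℕ} (M M' : Equiv.Perm (HE n)) : Prop :=
  ∃ (π : Equiv.Perm (Fin n)) (σ : Equiv.Perm (HE n)),
    (∀ h, (σ h).1 = π h.1) ∧ ∀ h, σ (M h) = M' (σ h)

/-- connected cubic multigraphs with vertex set `Fin n` -/
def CubicGraph (n : ℕ) := {M : Equiv.Perm (HE n) // IsMat M ∧ Conn M}

theorem Iso.refl {n : ℕ} (M : Equiv.Perm (HE n)) : Iso M M := ⟨1, 1, fun _ => rfl, fun _ => rfl⟩

theorem Iso.symm {n : ℕ} {M M' : Equiv.Perm (HE n)} (h : Iso M M') : Iso M' M := by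
  obtain ⟨π, σ, h1, h2⟩ := h
  refine ⟨π.symm, σ.symm, fun x => ?_, fun x => ?_⟩
  · rw [Equiv.eq_symm_apply, ← h1, Equiv.apply_symm_apply]
  · rw [Equiv.symm_apply_eq, h2, Equiv.apply_symm_apply]

theorem Iso.trans {n : ℕ} {M M' M'' : Equiv.Perm (HE n)} (h : Iso M M') (h' : Iso M' M'') :
    Iso M M'' := by
  obtain ⟨π, σ, h1, h2⟩ := h
  obtain ⟨π', σ', h1', h2'⟩ := h'
  exact ⟨π' * π, σ' * σ, fun x => by simp [h1, h1'], fun x => by simp [h2, h2']⟩

instance isoSetoid (n : ℕ) : Setoid (CubicGraph n) where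
  r M M' := Iso M.1 M'.1
  iseqv := ⟨fun M => Iso.refl M.1, fun h => h.symm, fun h h' => h.trans h'⟩

/-- isomorphism classes of connected cubic multigraphs with `n` vertices -/
def Cls (n : ℕ) := Quotient (isoSetoid n)

/-- `M'` is obtained from `M` by a Whitehead move: the edge `e = {x, M x}` is not a loop, with ends
`u = x.1` and `v = (M x).1`; `f ≠ x` is an edge-end at `u`, `g ≠ M x` is an edge-end at `v`, and the
edge-ends `f` and `g` are exchanged: `f` is attached to `v` and `g` is attached to `u`. -/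
def WM {n : ℕ} (M M' : Equiv.Perm (HE n)) : Prop :=
  ∃ x f g : HE n, x.1 ≠ (M x).1 ∧ f.1 = x.1 ∧ f ≠ x ∧ g.1 = (M x).1 ∧ g ≠ M x ∧
    M' = Equiv.swap f g * M * Equiv.swap f g

theorem WM.symm {n : ℕ} {M M' : Equiv.Perm (HE n)} (h : WM M M') : WM M' M := by
  obtain ⟨x, f, g, h1, h2, h3, h4, h5, rfl⟩ := h
  have e1 : (Equiv.swap f g) x = x := by
    apply Equiv.swap_apply_of_ne_of_ne (Ne.symm h3)
    rintro rfl
    exact h1 h4
  have e2 : (Equiv.swap f g) (M x) = M x := by
    apply Equiv.swap_apply_of_ne_of_ne _ (Ne.symm h5)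
    intro h
    rw [← h] at h2
    exact h1 h2.symm
  have e3 : (Equiv.swap f g * M * Equiv.swap f g) x = M x := by
    simp [e1, e2]
  refine ⟨x, f, g, by rw [e3]; exact h1, h2, h3, by rw [e3]; exact h4, by rw [e3]; exact h5, ?_⟩
  ext y : 1
  simp

/-- the graph `Γᵘ_n` of the isomorphism classes -/
def Gam (n : ℕ) : SimpleGraph (Cls n) where
  Adj x y := x ≠ y ∧ ∃ M M' : CubicGraph n, Quotient.mk (isoSetoid n) M = x ∧
    Quotient.mk (isoSetoid n) M' = y ∧ WM M.1 M'.1
  symm := ⟨fun x y h => by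
    obtain ⟨h1, M, M', h2, h3, h4⟩ := h
    exact ⟨h1.symm, M', M, h3, h2, h4.symm⟩⟩
  loopless := ⟨fun x h => h.1 rfl⟩

/-- the answer -/
def S_MAIN : Prop :=
  ∃ d : ℕ → ℕ, Tendsto d atTop atTop ∧
    Tendsto (fun k : ℕ =>
      ({x : Cls (2 * k) | d (2 * k) ≤ ((Gam (2 * k)).neighborSet x).ncard}.ncard : ℝ) /
        (Nat.card (Cls (2 * k)) : ℝ)) atTop (𝓝 1)

end Pool.Agent.K1H77.CG
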