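import Pool.Agent.K1H77.CG.Rat
import Pool.Agent.K1H33.CG.Card
import Pool.Agent.K1H99.CG.Fm
import Pool.Agent.K1H36.CG.Conn
import Pool.Agent.K1H38.CG.Dens
import Pool.Agent.K1H33.CG.Cyc
import Pool.Agent.K1H33.CG.Det
import Pool.Agent.K1H7.CG.Int
import Pool.Agent.K1H39.CG.Ex
import Pool.Agent.K1H26.CG.Typ
import Pool.Agent.K1H95.CG.Move
import Pool.Agent.K1H96.CG.Deg
import Pool.Agent.K1H97.CG.Orb
import Pool.Agent.K1H37.CG.Fix
import Pool.Agent.K1H26.CG.Perms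
import Pool.Agent.K1H95.CG.Gam
import Pool.Agent.K1H1.CG.Term
import Pool.Agent.K1H87.CG.Sq
import Pool.Agent.K1H68.CG.Sum

set_option autoImplicit false

namespace Pool.Agent.K1H77.CG

theorem main : S_MAIN := by
  have hcard := Pool.Agent.K1H33.CG.t_CARD
  have hpres := Pool.Agent.K1H33.CG.t_PRES
  have hclos := Pool.Agent.K1H33.CG.t_CLOS
  have hfmr := Pool.Agent.K1H99.CG.t_FMR
  have hfma := Pool.Agent.K1H99.CG.t_FMA
  have hconn := Pool.Agent.K1H36.CG.t_CONN hclos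
  have hdens := Pool.Agent.K1H38.CG.t_DENS hclos hfmr
  have hcyc1 := Pool.Agent.K1H33.CG.t_CYC1 (Pool.Agent.K1H33.CG.t_CYC1E hpres) hfma
  have hdisj := Pool.Agent.K1H33.CG.t_DISJ hpres
  have hnew := Pool.Agent.K1H33.CG.t_NEW
  have hint := Pool.Agent.K1H7.CG.t_INT hnew hpres hfmr
  have hcyc2 := Pool.Agent.K1H39.CG.t_CYC2 hdisj Pool.Agent.K1H33.CG.t_SAME hint hcyc1 hfma
  have hex := Pool.Agent.K1H39.CG.t_EX hcard hcyc1 hcyc2
  have htyp := Pool.Agent.K1H26.CG.t_TYP hconn hdens hex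
  have hdeg := Pool.Agent.K1H96.CG.t_DEG (Pool.Agent.K1H95.CG.t_MOVE hnew)
    Pool.Agent.K1H96.CG.t_WMC Pool.Agent.K1H96.CG.t_INV
  have hterm := Pool.Agent.K1H1.CG.t_TERM (Pool.Agent.K1H37.CG.t_FIX hcard)
    Pool.Agent.K1H26.CG.t_PERMS Pool.Agent.K1H95.CG.t_GAM Pool.Agent.K1H95.CG.t_WRC hfmr
  exact t_FIN hcard htyp hdeg Pool.Agent.K1H97.CG.t_ORB (Pool.Agent.K1H68.CG.t_SUM1 hterm)
    (Pool.Agent.K1H68.CG.t_SUM0 hterm) Pool.Agent.K1H87.CG.t_SQ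

end Pool.Agent.K1H77.CG
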