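import Pool.Agent.K1H77.CG.Stm

set_option autoImplicit false

open Finset Filter Topology

namespace Pool.Agent.K1H77.CG

theorem Iso.isMat {n : ℕ} {M M' : Equiv.Perm (HE n)} (h : Iso M M') (hM : IsMat M) : IsMat M' := by
  obtain ⟨π, σ, h1, h2⟩ := h
  refine ⟨fun y => ?_, fun y => ?_⟩
  · obtain ⟨x, rfl⟩ := σ.surjective y
    rw [← h2, ← h2, hM.1]
  · obtain ⟨x, rfl⟩ := σ.surjective y
    rw [← h2]
    exact fun h => hM.2 x (σ.injective h)

theorem Iso.conn {n : ℕ} {M M' : Equiv.Perm (HE n)} (h : Iso M M') (hM : Conn M) : Conn M' := by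
  obtain ⟨π, σ, h1, h2⟩ := h
  intro S hS hcl
  have key := hM (univ.filter (fun v => π v ∈ S)) ?_ ?_
  · ext v
    simp only [mem_univ, iff_true]
    have : π.symm v ∈ (univ.filter (fun v => π v ∈ S)) := by rw [key]; exact mem_univ _
    simpa using this
  · obtain ⟨v, hv⟩ := hS
    exact ⟨π.symm v, by simpa using hv⟩
  · intro h hh
    simp only [mem_filter, mem_univ, true_and] at hh ⊢
    rw [← h1] at hh ⊢
    rw [h2]
    exact hcl _ hh

instance (n : ℕ) : Finite (Cls n) := by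
  have : Finite (CubicGraph n) := by unfold CubicGraph; infer_instance
  unfold Cls
  infer_instance

/-- the connected matchings with `P` -/
noncomputable def CF (n : ℕ) (P : Equiv.Perm (HE n) → Prop) : Finset (Equiv.Perm (HE n)) := by
  classical exact (Mat (HE n)).filter (fun M => Conn M ∧ P M)

theorem mem_CF {n : ℕ} {P : Equiv.Perm (HE n) → Prop} {M : Equiv.Perm (HE n)} :
    M ∈ CF n P ↔ IsMat M ∧ Conn M ∧ P M := by
  simp [CF, mem_Mat]

theorem orb' (h : S_ORB) (n : ℕ) (P : Equiv.Perm (HE n) → Prop)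
    (hP : ∀ M M', Iso M M' → P M → P M') :
    {x : Cls n | ∃ M : CubicGraph n, Quotient.mk (isoSetoid n) M = x ∧ P M.1}.ncard *
      (Wr n).card = ∑ M ∈ CF n P, stab M := h n P hP

/-- small degree -/
def Bad (n d : ℕ) (M : Equiv.Perm (HE n)) : Prop :=
  ∃ h : IsMat M ∧ Conn M, ((Gam n).neighborSet (Quotient.mk (isoSetoid n) ⟨M, h⟩)).ncard < d

theorem bad_inv (n d : ℕ) (M M' : Equiv.Perm (HE n)) (h : Iso M M') (hM : Bad n d M) :
    Bad n d M' := by
  obtain ⟨h1, h2⟩ := hM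
  refine ⟨⟨h.isMat h1.1, h.conn h1.2⟩, ?_⟩
  have : Quotient.mk (isoSetoid n) (⟨M', ⟨h.isMat h1.1, h.conn h1.2⟩⟩ : CubicGraph n) =
      Quotient.mk (isoSetoid n) ⟨M, h1⟩ := Quotient.sound (show Iso M' M from h.symm)
  rw [this]
  exact h2

theorem bad_set (n d : ℕ) : {x : Cls n | ((Gam n).neighborSet x).ncard < d} =
    {x : Cls n | ∃ M : CubicGraph n, Quotient.mk (isoSetoid n) M = x ∧ Bad n d M.1} := by
  ext x
  constructor
  · intro hx
    obtain ⟨M, rfl⟩ := Quotient.exists_rep x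
    exact ⟨M, rfl, M.2, hx⟩
  · rintro ⟨M, rfl, h, hx⟩
    exact hx

theorem all_set (n : ℕ) : (Set.univ : Set (Cls n)) =
    {x : Cls n | ∃ M : CubicGraph n, Quotient.mk (isoSetoid n) M = x ∧ True} := by
  ext x
  obtain ⟨M, rfl⟩ := Quotient.exists_rep x
  simp only [Set.mem_univ, true_iff]
  exact ⟨M, rfl, trivial⟩

open Classical in
theorem stab_le {n : ℕ} (M : Equiv.Perm (HE n)) : stab M ≤ stab0 M +
    ((Wr n).filter (fun σ => (¬ ∀ h, (σ h).1 = h.1) ∧ ∀ h, σ (M h) = M (σ h))).card := by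
  unfold stab stab0
  rw [← card_union_of_disjoint]
  · apply card_le_card
    intro σ hσ
    simp only [mem_filter, mem_union] at hσ ⊢
    by_cases h : ∀ h, (σ h).1 = h.1
    · left
      refine ⟨?_, hσ.2⟩
      simpa [Wr0] using h
    · right
      exact ⟨hσ.1, h, hσ.2⟩
  · rw [disjoint_left]
    intro σ h1 h2
    simp only [mem_filter, Wr0, mem_univ, true_and] at h1 h2
    exact h2.2.1 h1.1

theorem one_le_stab {n : ℕ} (M : Equiv.Perm (HE n)) : 1 ≤ stab M := by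
  classical
  unfold stab
  rw [Nat.one_le_iff_ne_zero, ← Nat.pos_iff_ne_zero, card_pos]
  refine ⟨1, ?_⟩
  simp only [mem_filter, Wr, mem_univ, true_and]
  exact ⟨⟨1, fun h => rfl⟩, fun h => rfl⟩

open Classical in
/-- the sum over the automorphisms moving vertices -/
theorem sum_moving {n : ℕ} (B : Finset (Equiv.Perm (HE n))) (hB : B ⊆ Mat (HE n)) :
    ∑ M ∈ B, ((Wr n).filter (fun σ => (¬ ∀ h, (σ h).1 = h.1) ∧ ∀ h, σ (M h) = M (σ h))).card ≤
      ∑ σ ∈ (Wr n).filter (fun σ => ¬ ∀ h, (σ h).1 = h.1), fixc σ := by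
  calc _ ≤ ∑ M ∈ Mat (HE n),
      ((Wr n).filter (fun σ => (¬ ∀ h, (σ h).1 = h.1) ∧ ∀ h, σ (M h) = M (σ h))).card :=
        sum_le_sum_of_subset hB
    _ = ∑ M ∈ Mat (HE n), ∑ σ ∈ (Wr n).filter (fun σ => ¬ ∀ h, (σ h).1 = h.1),
          (if ∀ h, σ (M h) = M (σ h) then 1 else 0) := by
        refine sum_congr rfl fun M _ => ?_
        rw [← filter_filter, card_filter]
    _ = ∑ σ ∈ (Wr n).filter (fun σ => ¬ ∀ h, (σ h).1 = h.1), ∑ M ∈ Mat (HE n),
          (if ∀ h, σ (M h) = M (σ h) then 1 else 0) := sum_comm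
    _ = _ := by
        refine sum_congr rfl fun σ _ => ?_
        rw [← card_filter]
        unfold fixc
        congr!

open Classical in
theorem sum_sq (h : S_SQ) {n : ℕ} (hn : 2 < n) (B : Finset (Equiv.Perm (HE n)))
    (hB : ∀ M ∈ B, IsMat M ∧ Conn M) :
    ∑ M ∈ B, (stab0 M : ℝ) ^ 2 ≤ ∑ σ ∈ Wr0 n, (36 : ℝ) ^ mv σ * fixc σ := by
  have hB' : B ⊆ Mat (HE n) := fun M hM => mem_Mat.2 (hB M hM).1
  calc ∑ M ∈ B, (stab0 M : ℝ) ^ 2 ≤
      ∑ M ∈ B, ∑ σ ∈ (Wr0 n).filter (fun σ => ∀ h, σ (M h) = M (σ h)), (36 : ℝ) ^ mv σ := by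
        refine sum_le_sum fun M hM => ?_
        have := h n M hn (hB M hM).1 (hB M hM).2
        exact_mod_cast this
    _ ≤ ∑ M ∈ Mat (HE n), ∑ σ ∈ (Wr0 n).filter (fun σ => ∀ h, σ (M h) = M (σ h)),
          (36 : ℝ) ^ mv σ := by
        refine sum_le_sum_of_subset_of_nonneg hB' fun M _ _ => ?_
        exact sum_nonneg fun σ _ => by positivity
    _ = ∑ M ∈ Mat (HE n), ∑ σ ∈ Wr0 n, (if ∀ h, σ (M h) = M (σ h) then (36 : ℝ) ^ mv σ else 0) := by
        refine sum_congr rfl fun M _ => ?_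
        rw [sum_filter]
    _ = ∑ σ ∈ Wr0 n, ∑ M ∈ Mat (HE n), (if ∀ h, σ (M h) = M (σ h) then (36 : ℝ) ^ mv σ else 0) :=
        sum_comm
    _ = _ := by
        refine sum_congr rfl fun σ _ => ?_
        rw [← sum_filter, sum_const, nsmul_eq_mul, mul_comm]
        unfold fixc
        congr!

theorem card_HE (k : ℕ) : Fintype.card (HE (2 * k)) = 6 * k := by
  simp [HE]
  ring

/-- many connected graphs -/
theorem half_conn (h0 : S_CARD) (h1 : S_TYP) : ∀ᶠ k : ℕ in atTop,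
    (fm (6 * k) : ℝ) / 2 ≤ ((CF (2 * k) (fun _ => True)).card : ℝ) := by
  classical
  obtain ⟨L, hL⟩ := h1 0 (1 / 2) (by norm_num)
  filter_upwards [hL] with k hk
  have hc : ((Mat (HE (2 * k))).card : ℝ) = fm (6 * k) := by
    rw [h0, card_HE]
  have hsub : (Mat (HE (2 * k))).card ≤ (CF (2 * k) (fun _ => True)).card +
      ((Mat (HE (2 * k))).filter (fun M => ¬ (Conn M ∧ NoDense (2 * L + 2) M ∧
        0 ≤ (lens L M).card))).card := by
    refine le_trans (card_le_card ?_) (card_union_le _ _)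
    intro M hM
    simp only [mem_union, mem_CF, mem_filter, mem_Mat, and_true] at hM ⊢
    by_cases h : Conn M
    · exact Or.inl ⟨hM, h⟩
    · exact Or.inr ⟨hM, fun h' => h h'.1⟩
  have h2 : ((Mat (HE (2 * k))).card : ℝ) ≤ ((CF (2 * k) (fun _ => True)).card : ℝ) +
      (((Mat (HE (2 * k))).filter (fun M => ¬ (Conn M ∧ NoDense (2 * L + 2) M ∧
        0 ≤ (lens L M).card))).card : ℝ) := by exact_mod_cast hsub
  have h4 := hk
  linarith

theorem cls_pos (h0 : S_CARD) (h1 : S_TYP) : ∀ᶠ k : ℕ in atTop, 0 < Nat.card (Cls (2 * k)) := by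
  classical
  filter_upwards [half_conn h0 h1] with k hk
  have hf : (0 : ℝ) < fm (6 * k) := by
    have := fm_pos (3 * k)
    rw [show 2 * (3 * k) = 6 * k by ring] at this
    exact_mod_cast this
  have : (0 : ℝ) < ((CF (2 * k) (fun _ => True)).card : ℝ) := by linarith
  have h2 : 0 < (CF (2 * k) (fun _ => True)).card := by exact_mod_cast this
  obtain ⟨M, hM⟩ := card_pos.1 h2
  rw [mem_CF] at hM
  have : Nonempty (Cls (2 * k)) := ⟨Quotient.mk (isoSetoid _) ⟨M, hM.1, hM.2.1⟩⟩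
  exact Nat.card_pos

theorem est_aux {F eps C' b S T : ℝ} (hF : 0 < F) (hb0 : 0 ≤ b) (hS0 : 0 ≤ S)
    (hC : 0 < C') (hb : b ≤ (eps / 8) ^ 2 / C' * F) (hS : S ≤ C' * F) (hT : T ^ 2 ≤ b * S)
    (he : 0 < eps) : T ≤ eps / 8 * F := by
  have h1 : T ^ 2 ≤ (eps / 8 * F) ^ 2 := by
    calc T ^ 2 ≤ b * S := hT
      _ ≤ ((eps / 8) ^ 2 / C' * F) * (C' * F) := by
        apply mul_le_mul hb hS hS0
        positivity
      _ = (eps / 8 * F) ^ 2 := by
        field_simp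
  exact (abs_le_of_sq_le_sq' h1 (by positivity)).2

theorem est_aux2 {F eps a b W : ℝ} (hW : 0 < W) (h1 : a * W ≤ eps / 4 * F) (h2 : F / 2 ≤ b * W)
    (he : 0 < eps) (hF : 0 < F) : a < eps * b := by
  have : a * W < eps * b * W := by nlinarith
  exact lt_of_mul_lt_mul_right this hW.le

theorem t_RAT (h0 : S_CARD) (h1 : S_TYP) (h2 : S_DEG) (h3 : S_ORB) (h4 : S_SUM1) (h5 : S_SUM0)
    (h6 : S_SQ) : S_RAT := by
  classical
  intro d
  obtain ⟨C, hC⟩ := h5
  set C' : ℝ := max C 1 with hC'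
  have hC'1 : 0 < C' := lt_of_lt_of_le one_pos (le_max_right _ _)
  rw [Metric.tendsto_atTop']
  intro ε hε
  set ε' : ℝ := (ε / 8) ^ 2 / C' with hε'
  have hε'0 : 0 < ε' := by positivity
  obtain ⟨L, hL⟩ := h1 d ε' hε'0
  have e1 : ∀ᶠ k : ℕ in atTop, (∑ σ ∈ (Wr (2 * k)).filter (fun σ => ¬ ∀ h, (σ h).1 = h.1),
      (fixc σ : ℝ)) / fm (6 * k) < ε / 8 := by
    have := (tendsto_order.1 h4).2 (ε / 8) (by positivity)
    filter_upwards [this] with k hk
    convert hk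
  have e2 : ∀ᶠ k : ℕ in atTop, 2 ≤ k := eventually_ge_atTop 2
  have e3 := half_conn h0 h1
  have all := (((hL.and e1).and e2).and e3)
  rw [eventually_atTop] at all
  obtain ⟨K, hK⟩ := all
  refine ⟨K, fun k hk => ?_⟩
  obtain ⟨⟨⟨a1, a2⟩, a3⟩, a4⟩ := hK k hk.le
  have hf : (0 : ℝ) < fm (6 * k) := by
    have := fm_pos (3 * k)
    rw [show 2 * (3 * k) = 6 * k by ring] at this
    exact_mod_cast this
  set W : ℝ := ((Wr (2 * k)).card : ℝ) with hW
  have hWpos : 0 < W := by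
    have : 0 < (Wr (2 * k)).card := by
      rw [card_pos]
      refine ⟨1, ?_⟩
      simp only [Wr, mem_filter, mem_univ, true_and]
      exact ⟨1, fun h => rfl⟩
    rw [hW]
    exact_mod_cast this
  -- the bad graphs
  set B : Finset (Equiv.Perm (HE (2 * k))) := CF (2 * k) (Bad (2 * k) d) with hBdef
  have hB1 : ∀ M ∈ B, IsMat M ∧ Conn M := by
    intro M hM
    rw [hBdef, mem_CF] at hM
    exact ⟨hM.1, hM.2.1⟩
  have hBsub : B ⊆ Mat (HE (2 * k)) := fun M hM => mem_Mat.2 (hB1 M hM).1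
  have hBcard : (B.card : ℝ) ≤ ε' * fm (6 * k) := by
    refine le_trans ?_ a1
    have : B.card ≤ ((Mat (HE (2 * k))).filter (fun M => ¬ (Conn M ∧ NoDense (2 * L + 2) M ∧
      d ≤ (lens L M).card))).card := by
      apply card_le_card
      intro M hM
      rw [hBdef, mem_CF] at hM
      simp only [mem_filter, mem_Mat]
      refine ⟨hM.1, fun hcon => ?_⟩
      obtain ⟨g1, g2⟩ := hM.2.2
      have := h2 (2 * k) L d ⟨M, g1⟩ hcon.2.1 hcon.2.2
      omega
    exact_mod_cast this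
  have hbad : ({x : Cls (2 * k) | ((Gam (2 * k)).neighborSet x).ncard < d}.ncard : ℝ) * W =
      ∑ M ∈ B, (stab M : ℝ) := by
    rw [bad_set, hW]
    have := orb' h3 (2 * k) (Bad (2 * k) d) (bad_inv _ _)
    exact_mod_cast this
  have hall : (Nat.card (Cls (2 * k)) : ℝ) * W ≥ fm (6 * k) / 2 := by
    have := orb' h3 (2 * k) (fun _ => True) (fun _ _ _ _ => trivial)
    rw [← all_set, Set.ncard_univ] at this
    have h' : (Nat.card (Cls (2 * k)) : ℝ) * W =
        ∑ M ∈ CF (2 * k) (fun _ => True), (stab M : ℝ) := by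
      rw [hW]
      exact_mod_cast this
    rw [h']
    refine le_trans a4 ?_
    rw [card_eq_sum_ones, Nat.cast_sum]
    refine sum_le_sum fun M _ => ?_
    exact_mod_cast one_le_stab M
  -- the estimate
  have s1 : ∑ M ∈ B, (stab M : ℝ) ≤ ∑ M ∈ B, (stab0 M : ℝ) +
      ∑ σ ∈ (Wr (2 * k)).filter (fun σ => ¬ ∀ h, (σ h).1 = h.1), (fixc σ : ℝ) := by
    have t1 : ∑ M ∈ B, stab M ≤ ∑ M ∈ B, stab0 M + ∑ M ∈ B, ((Wr (2 * k)).filter
        (fun σ => (¬ ∀ h, (σ h).1 = h.1) ∧ ∀ h, σ (M h) = M (σ h))).card := by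
      rw [← sum_add_distrib]
      exact sum_le_sum fun M _ => stab_le M
    have t2 := sum_moving B hBsub
    have t3 := t1.trans (Nat.add_le_add_left t2 _)
    exact_mod_cast t3
  have s3 : ∑ M ∈ B, (stab0 M : ℝ) ≤ ε / 8 * fm (6 * k) := by
    have t1 : (∑ M ∈ B, (stab0 M : ℝ)) ^ 2 ≤ B.card * ∑ M ∈ B, (stab0 M : ℝ) ^ 2 :=
      sq_sum_le_card_mul_sum_sq
    have t2 := sum_sq h6 (n := 2 * k) (by omega) B hB1
    have t3 := hC k (by omega)
    have t4 : ∑ M ∈ B, (stab0 M : ℝ) ^ 2 ≤ C' * fm (6 * k) :=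
      t2.trans (t3.trans (mul_le_mul_of_nonneg_right (le_max_left _ _) hf.le))
    exact est_aux hf (Nat.cast_nonneg _) (sum_nonneg fun M _ => sq_nonneg _) hC'1 hBcard t4 t1 hε
  have s4 : ∑ σ ∈ (Wr (2 * k)).filter (fun σ => ¬ ∀ h, (σ h).1 = h.1), (fixc σ : ℝ) ≤
      ε / 8 * fm (6 * k) := by
    rw [div_lt_iff₀ hf] at a2
    exact a2.le
  have s5 : ({x : Cls (2 * k) | ((Gam (2 * k)).neighborSet x).ncard < d}.ncard : ℝ) * W ≤
      ε / 4 * fm (6 * k) := by
    rw [hbad]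
    linarith
  rw [Real.dist_eq, sub_zero, abs_of_nonneg (by positivity)]
  have hcpos : (0 : ℝ) < Nat.card (Cls (2 * k)) := by
    by_contra hcon
    have : (Nat.card (Cls (2 * k)) : ℝ) * W ≤ 0 :=
      mul_nonpos_of_nonpos_of_nonneg (not_lt.1 hcon) hWpos.le
    linarith
  rw [div_lt_iff₀ hcpos]
  exact est_aux2 hWpos s5 hall hε hf

theorem t_MAIN (h : S_RAT) (hne : ∀ᶠ k : ℕ in atTop, 0 < Nat.card (Cls (2 * k))) : S_MAIN := by
  classical
  set r : ℕ → ℕ → ℝ := fun d k =>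
    ({x : Cls (2 * k) | ((Gam (2 * k)).neighborSet x).ncard < d}.ncard : ℝ) /
      (Nat.card (Cls (2 * k)) : ℝ) with hr
  have hr0 : ∀ d, Tendsto (r d) atTop (𝓝 0) := h
  set Q : ℕ → ℕ → Prop := fun k d => ∀ k' ≥ k, r d k' ≤ 1 / ((d : ℝ) + 1) with hQ
  set D : ℕ → ℕ := fun k => Nat.findGreatest (Q k) k with hD
  have hDt : Tendsto D atTop atTop := by
    rw [tendsto_atTop]
    intro b
    have := (tendsto_order.1 (hr0 b)).2 (1 / ((b : ℝ) + 1)) (by positivity)
    rw [eventually_atTop] at this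
    obtain ⟨K, hK⟩ := this
    filter_upwards [eventually_ge_atTop (max K b)] with k hk
    apply Nat.le_findGreatest (le_trans (le_max_right _ _) hk)
    intro k' hk'
    exact (hK k' (le_trans (le_trans (le_max_left _ _) hk) hk')).le
  have hDr : ∀ k, r (D k) k ≤ 1 / ((D k : ℝ) + 1) := by
    intro k
    by_cases hz : D k = 0
    · rw [hz]
      simp only [hr, not_lt_zero', Set.setOf_false, Set.ncard_empty, Nat.cast_zero, zero_div]
      positivity
    · have : Q k (D k) := Nat.findGreatest_of_ne_zero rfl hz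
      exact this k le_rfl
  refine ⟨fun n => D (n / 2), hDt.comp (Nat.tendsto_div_const_atTop (by norm_num)), ?_⟩
  have hlim : Tendsto (fun k => r (D k) k) atTop (𝓝 0) := by
    refine squeeze_zero (fun k => by simp only [hr]; positivity) hDr ?_
    exact (tendsto_one_div_add_atTop_nhds_zero_nat (𝕜 := ℝ)).comp hDt
  have : Tendsto (fun k => 1 - r (D k) k) atTop (𝓝 1) := by
    simpa using hlim.const_sub 1
  refine this.congr' ?_
  filter_upwards [hne] with k hk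
  have e : 2 * k / 2 = k := by omega
  simp only [e]
  have hk' : (0 : ℝ) < Nat.card (Cls (2 * k)) := by exact_mod_cast hk
  have hcompl : {x : Cls (2 * k) | D k ≤ ((Gam (2 * k)).neighborSet x).ncard} =
      {x : Cls (2 * k) | ((Gam (2 * k)).neighborSet x).ncard < D k}ᶜ := by
    ext x
    simp
  have hadd := Set.ncard_add_ncard_compl
    {x : Cls (2 * k) | ((Gam (2 * k)).neighborSet x).ncard < D k}
  rw [← hcompl] at hadd
  have hadd' : ({x : Cls (2 * k) | ((Gam (2 * k)).neighborSet x).ncard < D k}.ncard : ℝ) +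
      ({x : Cls (2 * k) | D k ≤ ((Gam (2 * k)).neighborSet x).ncard}.ncard : ℝ) =
        Nat.card (Cls (2 * k)) := by exact_mod_cast hadd
  simp only [hr]
  rw [eq_div_iff hk'.ne', sub_mul, div_mul_cancel₀ _ hk'.ne', one_mul]
  linarith

theorem t_FIN (h0 : S_CARD) (h1 : S_TYP) (h2 : S_DEG) (h3 : S_ORB) (h4 : S_SUM1) (h5 : S_SUM0)
    (h6 : S_SQ) : S_MAIN :=
  t_MAIN (t_RAT h0 h1 h2 h3 h4 h5 h6) (cls_pos h0 h1)

end Pool.Agent.K1H77.CG
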